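import Pool.Agent.H37.AF.Def

/-!
# The derivative along a curve, and the sizes of the derivatives

`drv : Pool.AF37.Drv`.
-/

set_option autoImplicit false

namespace Pool.AF21

open Finset MvPolynomial
open Pool.AF37 (l1 l1p Tay Drv)
open Pool.BFL (Pl)

variable {n : ℕ}

theorem l1_eq {G : Pl n} {s : Finset (Fin n →₀ ℕ)} (h : G.support ⊆ s) :
    l1 G = ∑ α ∈ s, |G.coeff α| := by
  unfold l1
  refine Finset.sum_subset h fun α _ h2 => ?_
  rw [notMem_support_iff.1 h2, abs_zero]

theorem l1_nonneg (G : Pl n) : 0 ≤ l1 G := Finset.sum_nonneg fun _ _ => abs_nonneg _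

/-- The chain rule. -/
theorem chain (G : Pl n) (L : Fin n → Polynomial ℝ) : Polynomial.derivative (aeval L G) =
    ∑ m, aeval L (pderiv m G) * Polynomial.derivative (L m) := by
  classical
  induction G using MvPolynomial.induction_on with
  | C a =>
    simp only [aeval_C, pderiv_C, map_zero, zero_mul, Finset.sum_const_zero]
    exact Polynomial.derivative_C
  | add p q hp hq =>
    simp only [map_add, hp, hq, add_mul, Finset.sum_add_distrib]
  | mul_X p i hp =>
    rw [map_mul, aeval_X, Polynomial.derivative_mul, hp, Finset.sum_mul]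
    have h1 : ∀ m, aeval L (pderiv m (p * X i)) * Polynomial.derivative (L m) =
        aeval L (pderiv m p) * Polynomial.derivative (L m) * L i +
          (if m = i then aeval L p * Polynomial.derivative (L i) else 0) := by
      intro m
      rw [pderiv_mul, pderiv_X, map_add, map_mul, map_mul, aeval_X]
      split_ifs with h
      · subst h
        rw [Pi.single_eq_same, map_one]
        ring
      · rw [Pi.single_eq_of_ne (fun h' => h h'.symm), map_zero]
        ring
    simp only [h1]
    rw [Finset.sum_add_distrib, Finset.sum_ite_eq' Finset.univ i]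
    simp

theorem mem_pderiv {G : Pl n} {m : Fin n} {α : Fin n →₀ ℕ} (h : α ∈ (pderiv m G).support) :
    α + Finsupp.single m 1 ∈ G.support := by
  rw [mem_support_iff, coeff_pderiv] at h
  rw [mem_support_iff]
  exact left_ne_zero_of_mul h

theorem l1_pderiv (G : Pl n) (m : Fin n) :
    l1 (pderiv m G) = ∑ β ∈ G.support, (β m : ℝ) * |G.coeff β| := by
  classical
  unfold l1
  have h1 : ∀ α ∈ (pderiv m G).support, |(pderiv m G).coeff α| =
      ((α + Finsupp.single m 1 : Fin n →₀ ℕ) m : ℝ) * |G.coeff (α + Finsupp.single m 1)| := by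
    intro α _
    rw [coeff_pderiv, abs_mul, Finsupp.add_apply, Finsupp.single_eq_same, mul_comm]
    congr 1
    push_cast
    rw [abs_of_nonneg (by positivity)]
  rw [Finset.sum_congr rfl h1, ← Finset.sum_image (f := fun β : Fin n →₀ ℕ =>
    (β m : ℝ) * |G.coeff β|) (s := (pderiv m G).support)
    (g := fun α => α + Finsupp.single m 1) (fun a _ b _ e => add_right_cancel e)]
  refine Finset.sum_subset ?_ ?_
  · intro β hβ
    obtain ⟨α, h2, rfl⟩ := Finset.mem_image.1 hβ
    exact mem_pderiv h2
  · intro β hβ h2
    rcases Nat.eq_zero_or_pos (β m) with h3 | h3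
    · rw [h3]
      simp
    · exfalso
      refine h2 (Finset.mem_image.2 ⟨β - Finsupp.single m 1, ?_, ?_⟩)
      · rw [mem_support_iff, coeff_pderiv]
        have h4 : β - Finsupp.single m 1 + Finsupp.single m 1 = β :=
          tsub_add_cancel_of_le (by
            rw [Finsupp.single_le_iff]
            exact h3)
        rw [h4]
        refine mul_ne_zero (mem_support_iff.1 hβ) ?_
        positivity
      · exact tsub_add_cancel_of_le (by
          rw [Finsupp.single_le_iff]
          exact h3)

theorem apply_le (β : Fin n →₀ ℕ) (m : Fin n) : β m ≤ β.degree := by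
  classical
  rw [Finsupp.degree_eq_sum]
  exact Finset.single_le_sum (f := fun i => β i) (fun _ _ => Nat.zero_le _) (Finset.mem_univ m)

theorem degree_le {G : Pl n} {K : ℕ} (h : G.totalDegree ≤ K) {α : Fin n →₀ ℕ}
    (hα : α ∈ G.support) : α.degree ≤ K := by
  refine le_trans ?_ h
  have h1 := le_totalDegree hα
  rw [Finsupp.degree_eq_sum]
  rwa [Finsupp.sum_fintype _ _ (fun _ => rfl)] at h1

theorem totalDegree_le_of {G : Pl n} {K : ℕ} (h : ∀ α ∈ G.support, α.degree ≤ K) :
    G.totalDegree ≤ K := by
  rw [totalDegree]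
  refine Finset.sup_le fun α hα => ?_
  have h1 := h α hα
  rw [Finsupp.degree_eq_sum] at h1
  rwa [Finsupp.sum_fintype _ _ (fun _ => rfl)]

theorem degree_add_single (α : Fin n →₀ ℕ) (m : Fin n) :
    (α + Finsupp.single m 1).degree = α.degree + 1 := by
  rw [map_add, Finsupp.degree_single]

/-- **The derivative along a curve.** -/
theorem drv : Drv := by
  classical
  intro n G
  refine ⟨fun L => chain G L, fun K m hK => ⟨?_, ?_⟩, fun r m hr α hα => ?_, ?_⟩
  · rw [l1_pderiv]
    unfold l1
    rw [Finset.mul_sum]
    refine Finset.sum_le_sum fun β hβ => mul_le_mul_of_nonneg_right ?_ (abs_nonneg _)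
    exact_mod_cast (apply_le β m).trans (degree_le hK hβ)
  · refine totalDegree_le_of fun α hα => ?_
    have h1 := degree_le hK (mem_pderiv hα)
    rw [degree_add_single] at h1
    omega
  · have h1 := hr _ (mem_pderiv hα)
    rw [degree_add_single] at h1
    omega
  · have h1 : ∀ β ∈ G.support, |G.coeff β| ≤ (if β = 0 then |G.coeff 0| else 0) +
        ∑ m, (β m : ℝ) * |G.coeff β| := by
      intro β _
      split_ifs with h
      · subst h
        simp
      · rw [zero_add, ← Finset.sum_mul]
        refine le_mul_of_one_le_left (abs_nonneg _) ?_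
        obtain ⟨m, hm⟩ := Finsupp.ne_iff.1 h
        rw [Finsupp.coe_zero, Pi.zero_apply] at hm
        have h2 : (1 : ℝ) ≤ (β m : ℝ) := by exact_mod_cast Nat.one_le_iff_ne_zero.2 hm
        exact h2.trans (Finset.single_le_sum (f := fun i => (β i : ℝ))
          (fun _ _ => Nat.cast_nonneg _) (Finset.mem_univ m))
    calc l1 G = ∑ β ∈ G.support, |G.coeff β| := rfl
      _ ≤ ∑ β ∈ G.support, ((if β = 0 then |G.coeff 0| else 0) +
        ∑ m, (β m : ℝ) * |G.coeff β|) := Finset.sum_le_sum h1
      _ = (∑ β ∈ G.support, if β = 0 then |G.coeff 0| else 0) + ∑ m, l1 (pderiv m G) := by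
        rw [Finset.sum_add_distrib]
        congr 1
        rw [Finset.sum_comm]
        exact Finset.sum_congr rfl fun m _ => (l1_pderiv G m).symm
      _ ≤ _ := by
        refine add_le_add ?_ le_rfl
        rw [Finset.sum_ite_eq' G.support (0 : Fin n →₀ ℕ) fun _ => |G.coeff 0|]
        split_ifs
        · exact le_rfl
        · exact abs_nonneg _

end Pool.AF21
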