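import Pool.Agent.H21.AF.Drv

/-!
# Taylor along a curve, in the `l1` norm

`tay : Pool.AF37.Tay`.
-/

set_option autoImplicit false

namespace Pool.AF21

open Finset MvPolynomial
open Pool.AF37 (l1 l1p Tay Drv)
open Pool.BFL (Pl)

/-! ### The norm of polynomials in one variable -/

theorem l1p_eq {p : Polynomial ℝ} {s : Finset ℕ} (h : p.support ⊆ s) :
    l1p p = ∑ a ∈ s, |p.coeff a| := by
  unfold l1p
  refine Finset.sum_subset h fun α _ h2 => ?_
  rw [Polynomial.notMem_support_iff.1 h2, abs_zero]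

theorem l1p_nonneg (p : Polynomial ℝ) : 0 ≤ l1p p := Finset.sum_nonneg fun _ _ => abs_nonneg _

theorem l1p_add (p q : Polynomial ℝ) : l1p (p + q) ≤ l1p p + l1p q := by
  classical
  rw [l1p_eq (s := p.support ∪ q.support) Polynomial.support_add,
    l1p_eq (p := p) (s := p.support ∪ q.support) Finset.subset_union_left,
    l1p_eq (p := q) (s := p.support ∪ q.support) Finset.subset_union_right,
    ← Finset.sum_add_distrib]
  refine Finset.sum_le_sum fun a _ => ?_
  rw [Polynomial.coeff_add]
  exact abs_add_le _ _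

theorem l1p_zero : l1p 0 = 0 := by simp [l1p]

theorem l1p_sum {ι : Type} (s : Finset ι) (f : ι → Polynomial ℝ) :
    l1p (∑ i ∈ s, f i) ≤ ∑ i ∈ s, l1p (f i) := by
  classical
  induction s using Finset.induction_on with
  | empty => simp [l1p_zero]
  | insert i s hi ih =>
    rw [Finset.sum_insert hi, Finset.sum_insert hi]
    exact (l1p_add _ _).trans (by linarith)

theorem coeff_mm (a : ℕ) (c : ℝ) (q : Polynomial ℝ) (b : ℕ) :
    (Polynomial.monomial a c * q).coeff b = if a ≤ b then c * q.coeff (b - a) else 0 := by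
  rw [← Polynomial.C_mul_X_pow_eq_monomial, mul_assoc, Polynomial.coeff_C_mul,
    Polynomial.coeff_X_pow_mul']
  split_ifs
  · rfl
  · rw [mul_zero]

theorem l1p_mono_mul (a : ℕ) (c : ℝ) (q : Polynomial ℝ) :
    l1p (Polynomial.monomial a c * q) ≤ |c| * l1p q := by
  classical
  have h1 : (Polynomial.monomial a c * q).support ⊆ q.support.image (fun b => b + a) := by
    intro b hb
    rw [Polynomial.mem_support_iff, coeff_mm] at hb
    split_ifs at hb with h
    · refine Finset.mem_image.2 ⟨b - a, ?_, by omega⟩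
      rw [Polynomial.mem_support_iff]
      exact right_ne_zero_of_mul hb
    · exact absurd rfl hb
  rw [l1p_eq h1, Finset.sum_image (fun x _ y _ e => Nat.add_right_cancel e)]
  unfold l1p
  rw [Finset.mul_sum]
  refine Finset.sum_le_sum fun b _ => ?_
  rw [coeff_mm, if_pos (Nat.le_add_left a b), Nat.add_sub_cancel, abs_mul]

theorem l1p_mul (p q : Polynomial ℝ) : l1p (p * q) ≤ l1p p * l1p q := by
  classical
  conv_lhs => rw [p.as_sum_support]
  rw [Finset.sum_mul]
  refine (l1p_sum _ _).trans ?_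
  unfold l1p at *
  rw [Finset.sum_mul]
  exact Finset.sum_le_sum fun a _ => l1p_mono_mul a _ q

theorem l1p_C_mul (c : ℝ) (p : Polynomial ℝ) : l1p (Polynomial.C c * p) ≤ |c| * l1p p := by
  rw [← Polynomial.monomial_zero_left]
  exact l1p_mono_mul 0 c p

theorem l1p_neg (p : Polynomial ℝ) : l1p (-p) = l1p p := by
  unfold l1p
  rw [Polynomial.support_neg]
  refine Finset.sum_congr rfl fun a _ => ?_
  rw [Polynomial.coeff_neg, abs_neg]

theorem l1p_one : l1p 1 ≤ 1 := by
  have h := l1p_mono_mul 0 1 1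
  have h1 : l1p (1 : Polynomial ℝ) = 1 := by
    rw [l1p_eq (s := {0})]
    · simp
    · intro a ha
      rw [Polynomial.mem_support_iff, Polynomial.coeff_one] at ha
      rw [Finset.mem_singleton]
      by_contra h2
      exact ha (if_neg h2)
  exact h1.le

/-! ### Monomials -/

variable {n : ℕ}

/-- The first order remainder. -/
noncomputable def rm (L H : Fin n → Polynomial ℝ) (G : Pl n) : Polynomial ℝ :=
  aeval (fun m => L m + H m) G - aeval L G - ∑ m, aeval L (pderiv m G) * H m

theorem rm_mul (L H : Fin n → Polynomial ℝ) (i : Fin n) (G : Pl n) :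
    rm L H (X i * G) = L i * rm L H G +
      H i * (aeval (fun m => L m + H m) G - aeval L G) := by
  classical
  unfold rm
  have h1 : ∀ m, aeval L (pderiv m (X i * G)) * H m =
      L i * (aeval L (pderiv m G) * H m) + (if m = i then aeval L G * H i else 0) := by
    intro m
    rw [pderiv_mul, pderiv_X, map_add, map_mul, map_mul, aeval_X]
    split_ifs with h
    · subst h
      rw [Pi.single_eq_same, map_one]
      ring
    · rw [Pi.single_eq_of_ne (fun h' => h h'.symm), map_zero]
      ring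
  rw [Finset.sum_congr rfl fun m _ => h1 m, Finset.sum_add_distrib, ← Finset.mul_sum,
    Finset.sum_ite_eq' Finset.univ i, if_pos (Finset.mem_univ i)]
  rw [map_mul, map_mul, aeval_X, aeval_X]
  ring

/-- The bounds for the monomials. -/
theorem mono_bd {L H : Fin n → Polynomial ℝ} {R h : ℝ} (hR : 1 ≤ R) (h0 : 0 ≤ h) (h1 : h ≤ 1)
    (hL : ∀ m, l1p (L m) ≤ R) (hH : ∀ m, l1p (H m) ≤ h) (k : ℕ) :
    ∀ α : Fin n →₀ ℕ, α.degree = k →
      l1p (aeval L (monomial α (1 : ℝ))) ≤ R ^ k ∧
      l1p (aeval (fun m => L m + H m) (monomial α (1 : ℝ))) ≤ 2 ^ k * R ^ k ∧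
      l1p (aeval (fun m => L m + H m) (monomial α (1 : ℝ)) - aeval L (monomial α (1 : ℝ))) ≤
        2 ^ k * R ^ k * h ∧
      l1p (rm L H (monomial α (1 : ℝ))) ≤ 2 ^ k * R ^ k * h ^ 2 := by
  classical
  induction k with
  | zero =>
    intro α hα
    have h2 : α = 0 := by rwa [Finsupp.degree_eq_zero_iff] at hα
    subst h2
    have h3 : (monomial (0 : Fin n →₀ ℕ) (1 : ℝ)) = 1 := rfl
    have h4 : rm L H 1 = 0 := by
      unfold rm
      simp
    rw [h3, h4, map_one, map_one, sub_self, l1p_zero]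
    refine ⟨by simpa using l1p_one, by simpa using l1p_one, by positivity, by positivity⟩
  | succ k ih =>
    intro α hα
    have h2 : α ≠ 0 := by
      rintro rfl
      simp at hα
    obtain ⟨i, hi⟩ := Finsupp.ne_iff.1 h2
    rw [Finsupp.coe_zero, Pi.zero_apply] at hi
    have h3 : α = α - Finsupp.single i 1 + Finsupp.single i 1 := by
      rw [tsub_add_cancel_of_le]
      rw [Finsupp.single_le_iff]
      exact Nat.one_le_iff_ne_zero.2 hi
    obtain ⟨β, hβ⟩ : ∃ β : Fin n →₀ ℕ, β = α - Finsupp.single i 1 := ⟨_, rfl⟩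
    rw [← hβ] at h3
    have h4 : β.degree = k := by
      rw [h3, degree_add_single] at hα
      omega
    have h5 : (monomial α (1 : ℝ)) = X i * monomial β 1 := by
      rw [h3, add_comm, X, monomial_mul, one_mul]
    obtain ⟨b1, b2, b3, b4⟩ := ih β h4
    have hRk : (0 : ℝ) ≤ R ^ k := by positivity
    have h2k : (1 : ℝ) ≤ 2 ^ k := one_le_pow₀ (by norm_num)
    have hRR : (0 : ℝ) ≤ R := by linarith
    have hLH : l1p (L i + H i) ≤ 2 * R := by
      refine (l1p_add _ _).trans ?_
      have := hL i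
      have := hH i
      linarith
    rw [h5]
    refine ⟨?_, ?_, ?_, ?_⟩
    · rw [map_mul, aeval_X]
      refine (l1p_mul _ _).trans ?_
      rw [pow_succ, mul_comm (R ^ k)]
      exact mul_le_mul (hL i) b1 (l1p_nonneg _) hRR
    · rw [map_mul, aeval_X]
      refine (l1p_mul _ _).trans ?_
      refine (mul_le_mul hLH b2 (l1p_nonneg _) (by positivity)).trans (le_of_eq ?_)
      ring
    · have e : aeval (fun m => L m + H m) (X i * monomial β (1 : ℝ)) -
          aeval L (X i * monomial β (1 : ℝ)) = L i * (aeval (fun m => L m + H m)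
            (monomial β (1 : ℝ)) - aeval L (monomial β (1 : ℝ))) +
            H i * aeval (fun m => L m + H m) (monomial β (1 : ℝ)) := by
        rw [map_mul, map_mul, aeval_X, aeval_X]
        ring
      rw [e]
      refine (l1p_add _ _).trans ?_
      have c1 := (l1p_mul (L i) (aeval (fun m => L m + H m)
            (monomial β (1 : ℝ)) - aeval L (monomial β (1 : ℝ)))).trans
        (mul_le_mul (hL i) b3 (l1p_nonneg _) hRR)
      have c2 := (l1p_mul (H i) (aeval (fun m => L m + H m) (monomial β (1 : ℝ)))).trans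
        (mul_le_mul (hH i) b2 (l1p_nonneg _) h0)
      have c3 : h * (2 ^ k * R ^ k) ≤ R * (2 ^ k * R ^ k * h) := by
        have : h * (2 ^ k * R ^ k) ≤ R * (h * (2 ^ k * R ^ k)) :=
          le_mul_of_one_le_left (by positivity) hR
        linarith
      calc _ ≤ R * (2 ^ k * R ^ k * h) + h * (2 ^ k * R ^ k) := add_le_add c1 c2
        _ ≤ R * (2 ^ k * R ^ k * h) + R * (2 ^ k * R ^ k * h) := by linarith
        _ = 2 ^ (k + 1) * R ^ (k + 1) * h := by ring
    · rw [rm_mul]
      refine (l1p_add _ _).trans ?_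
      have c1 := (l1p_mul (L i) (rm L H (monomial β (1 : ℝ)))).trans
        (mul_le_mul (hL i) b4 (l1p_nonneg _) hRR)
      have c2 := (l1p_mul (H i) (aeval (fun m => L m + H m) (monomial β (1 : ℝ)) -
        aeval L (monomial β (1 : ℝ)))).trans (mul_le_mul (hH i) b3 (l1p_nonneg _) h0)
      have c3 : h * (2 ^ k * R ^ k * h) ≤ R * (2 ^ k * R ^ k * h ^ 2) := by
        have : 2 ^ k * R ^ k * h ^ 2 ≤ R * (2 ^ k * R ^ k * h ^ 2) :=
          le_mul_of_one_le_left (by positivity) hR
        nlinarith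
      calc _ ≤ R * (2 ^ k * R ^ k * h ^ 2) + h * (2 ^ k * R ^ k * h) := add_le_add c1 c2
        _ ≤ R * (2 ^ k * R ^ k * h ^ 2) + R * (2 ^ k * R ^ k * h ^ 2) := by linarith
        _ = 2 ^ (k + 1) * R ^ (k + 1) * h ^ 2 := by ring

/-- A linear functional of the polynomial. -/
theorem lin_bd {F : Pl n → Polynomial ℝ} (hadd : ∀ p q, F (p + q) = F p + F q)
    (hC : ∀ (c : ℝ) p, F (C c * p) = Polynomial.C c * F p) {K : ℕ} {B : ℝ}
    (hB : ∀ α : Fin n →₀ ℕ, α.degree ≤ K → l1p (F (monomial α (1 : ℝ))) ≤ B) {G : Pl n}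
    (hG : G.totalDegree ≤ K) : l1p (F G) ≤ B * l1 G := by
  classical
  have h0 : F 0 = 0 := by
    have := hC 0 0
    rw [map_zero, zero_mul, map_zero, zero_mul] at this
    exact this
  have h1 : ∀ s : Finset (Fin n →₀ ℕ), F (∑ α ∈ s, monomial α (G.coeff α)) =
      ∑ α ∈ s, Polynomial.C (G.coeff α) * F (monomial α (1 : ℝ)) := by
    intro s
    induction s using Finset.induction_on with
    | empty => simp [h0]
    | insert α s hα ih =>
      rw [Finset.sum_insert hα, Finset.sum_insert hα, hadd, ih]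
      congr 1
      rw [← hC, C_mul_monomial, mul_one]
  have h2 : G = ∑ α ∈ G.support, monomial α (G.coeff α) := G.as_sum
  conv_lhs => rw [h2]
  rw [h1]
  refine (l1p_sum _ _).trans ?_
  unfold l1
  rw [Finset.mul_sum]
  refine Finset.sum_le_sum fun α hα => ?_
  refine (l1p_C_mul _ _).trans ?_
  rw [mul_comm]
  exact mul_le_mul_of_nonneg_right (hB α (degree_le hG hα)) (abs_nonneg _)

theorem rm_add (L H : Fin n → Polynomial ℝ) (p q : Pl n) :
    rm L H (p + q) = rm L H p + rm L H q := by
  unfold rm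
  simp only [map_add, add_mul, Finset.sum_add_distrib]
  ring

theorem rm_C (L H : Fin n → Polynomial ℝ) (c : ℝ) (p : Pl n) :
    rm L H (C c * p) = Polynomial.C c * rm L H p := by
  unfold rm
  have h1 : ∀ m, aeval L (pderiv m (C c * p)) * H m =
      Polynomial.C c * (aeval L (pderiv m p) * H m) := by
    intro m
    rw [pderiv_C_mul, map_mul, aeval_C]
    change Polynomial.C c * _ * _ = _
    ring
  rw [Finset.sum_congr rfl fun m _ => h1 m, ← Finset.mul_sum, map_mul, map_mul, aeval_C, aeval_C]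
  change Polynomial.C c * _ - Polynomial.C c * _ - _ = _
  ring

/-- **Taylor along a curve.** -/
theorem tay : Tay := by
  classical
  intro n K
  refine ⟨2 ^ K, one_le_pow₀ (by norm_num), fun G L H R h hK hR h0 h1 hL hH => ?_⟩
  have hm : ∀ k ≤ K, (2 : ℝ) ^ k * R ^ k ≤ 2 ^ K * R ^ K := fun k hk =>
    mul_le_mul (pow_le_pow_right₀ (by norm_num) hk) (pow_le_pow_right₀ hR hk)
      (by positivity) (by positivity)
  have hm1 : ∀ k ≤ K, R ^ k ≤ 2 ^ K * R ^ K := fun k hk =>
    (le_mul_of_one_le_left (by positivity) (one_le_pow₀ (by norm_num))).trans (hm k hk)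
  refine ⟨?_, ?_, ?_⟩
  · refine lin_bd (F := fun G => aeval L G) (fun p q => map_add _ p q) (fun c p => ?_) ?_ hK
    · rw [map_mul, aeval_C]
      rfl
    · intro α hα
      exact (mono_bd hR h0 h1 hL hH _ α rfl).1.trans (hm1 _ hα)
  · have := lin_bd (F := fun G => aeval (fun m => L m + H m) G - aeval L G)
      (fun p q => by simp only [map_add]; ring) (fun c p => by
        rw [map_mul, map_mul, aeval_C, aeval_C]
        change Polynomial.C c * _ - Polynomial.C c * _ = _
        ring) (K := K) (B := 2 ^ K * R ^ K * h) (fun α hα =>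
        (mono_bd hR h0 h1 hL hH _ α rfl).2.2.1.trans
          (mul_le_mul_of_nonneg_right (hm _ hα) h0)) hK
    exact this
  · exact lin_bd (F := rm L H) (rm_add L H) (rm_C L H) (K := K)
      (B := 2 ^ K * R ^ K * h ^ 2) (fun α hα =>
        (mono_bd hR h0 h1 hL hH _ α rfl).2.2.2.trans
          (mul_le_mul_of_nonneg_right (hm _ hα) (by positivity))) hK

end Pool.AF21
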